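import Mathlib
import Pool.Agent.Q46.CM.Final3
import Pool.Agent.Q46.CM.Exist

/-!
# The largest gap up to `x` in the random models which take small primes into account

Sieved random model (Cramér, Granville): in the dyadic block `[2 ^ j, 2 ^ (j + 1))` remove the integers with a prime
factor `≤ z j`, and keep the other integers `n` independently, each with probability `min 1 (1 / (V (z j) log n))`,
`V z = ∏_{p ≤ z} (1 - 1/p)`, so that the density near `n` is `1 / log n` as for the primes. Let `G(x)` be the largest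
gap between consecutive kept integers whose smaller member is at most `x`. We show, almost surely and for ALL
large `x` (not only for arbitrarily large `x`):

* if the level is at most a small power of `log n`, then `G(x)` lies between `(1 - ε) (log x)²` and
  `(1 + ε) (log x)²`; so `G(x) ~ (log x)²`, Cramér's conjecture, for the levels `(log n) ^ o(1)`;
* if the level is `(log n) ^ (1 - o(1))` and `o(log n)`, then `G(x) ≥ c (log x)²` for every `c < 2 e ^ (-γ) = 1.1229...`,
  Granville's constant;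
* if the level is at least a fixed power of `log n` and `o(log n)`, then `G(x) ≥ L (log x)²` with a constant `L > 1`
  depending only on the power; so `G(x) ~ (log x)²` is false there.

Ingredients: the fundamental lemma of the sieve (`Pool.Agent.H373R2.T7.Fund`), the prime number theorem and Mertens'
theorems (`Pool.Agent.H510R2.Maier`), intervals of length `z ^ U` with few integers free of prime factors `≤ z`
(`Pool.Agent.H318R2.Cr.lowInt`), all from the starting files; for the models the Borel-Cantelli lemma and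
independence (`Pool.Agent.Q46.CM`).
-/

set_option autoImplicit false

namespace Pool.Agent.Results.MP_f9960f_nt.LargestGapInSievedModels

open Filter Topology MeasureTheory ProbabilityTheory Pool.Agent.H318R2.Cr Pool.Agent.Q46.CM

universe u

/-- (0) The sieved model exists for every `z`. (1) Levels up to a small power of `log n`:
`(1 - ε) (log x)² ≤ G(x) ≤ (1 + ε) (log x)²` for all large `x`. (2) Levels `(log n) ^ (1 - o(1))`:
`G(x) ≥ c (log x)²` for all large `x`, for every `c < 2 e ^ (-γ)`. (3) Levels at least `(log n) ^ α`: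
`G(x) ≥ L (log x)²` for all large `x`, with `L > 1` depending only on `α`. -/
theorem result :
    (∀ z : ℕ → ℕ, ∃ (μ : Measure (ℕ → Bool)) (A : ℕ → Set (ℕ → Bool)), IsSievedModel μ z A) ∧
    (∃ K : ℝ → ℕ, ∀ z : ℕ → ℕ, Tendsto z atTop atTop →
      ∀ (Ω : Type u) [MeasurableSpace Ω] (μ : Measure Ω) (A : ℕ → Set Ω), IsSievedModel μ z A →
        ∀ᵐ ω ∂μ, ∀ ε : ℝ, 0 < ε → (∀ᶠ j : ℕ in atTop, z j ^ K ε ≤ j) → ∃ x₀ : ℝ, ∀ x : ℝ, x₀ ≤ x →
          (((1 - ε) * Real.log x ^ 2 : ℝ) : EReal) ≤ GapMax {n | ω ∈ A n} x ∧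
          GapMax {n | ω ∈ A n} x ≤ (((1 + ε) * Real.log x ^ 2 : ℝ) : EReal)) ∧
    (∀ z : ℕ → ℕ, Tendsto (fun j : ℕ => Real.log (z j) / Real.log j) atTop (𝓝 1) →
      Tendsto (fun j : ℕ => (z j : ℝ) / j) atTop (𝓝 0) →
      ∀ (Ω : Type u) [MeasurableSpace Ω] (μ : Measure Ω) (A : ℕ → Set Ω), IsSievedModel μ z A →
        ∀ᵐ ω ∂μ, ∀ c : ℝ, c < 2 * Real.exp (-Real.eulerMascheroniConstant) → ∃ x₀ : ℝ, ∀ x : ℝ, x₀ ≤ x →
          ((c * Real.log x ^ 2 : ℝ) : EReal) ≤ GapMax {n | ω ∈ A n} x) ∧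
    (∀ α : ℝ, 0 < α → ∃ L : ℝ, 1 < L ∧ ∀ z : ℕ → ℕ, (∀ᶠ j : ℕ in atTop, (j : ℝ) ^ α ≤ z j) →
      Tendsto (fun j : ℕ => (z j : ℝ) / j) atTop (𝓝 0) →
      ∀ (Ω : Type u) [MeasurableSpace Ω] (μ : Measure Ω) (A : ℕ → Set Ω), IsSievedModel μ z A →
        ∀ᵐ ω ∂μ, ∃ x₀ : ℝ, ∀ x : ℝ, x₀ ≤ x → ((L * Real.log x ^ 2 : ℝ) : EReal) ≤ GapMax {n | ω ∈ A n} x) :=
  ⟨exists_model, g2, fun _ h1 h2 _ _ _ _ hA => g1 hA h1 h2, g3⟩

end Pool.Agent.Results.MP_f9960f_nt.LargestGapInSievedModels
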