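import Pool.Agent.Q20.RG.Det

/-!
# Record prime gaps around all the entries of matrices with a prescribed determinant modulo `p`

For every `n ≥ 2` and `0 < ε ≤ 1` there is `κ > 0` such that for all large primes `p`, all `c` prime to
`p` and all boxes `∏ [A_ij, A_ij + N_ij)` in `[0, p)^(n × n)` with `∏ N_ij ≥ p^(n² - n + 1 + ε)` and all
`N_ij ≥ p^ε`, at least `(∏ N_ij) p^(-1 - ε)` of the integer matrices in the box with determinant
congruent to `c` modulo `p` (there are about `(∏ N_ij) / p`) have ALL their `n²` entries isolated on the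
record scale: no prime lies at distance at most `κ log p (log₂ p)² log₄ p / (log₃ p)²` of any of the
entries.  For `n = 2` these are the solutions of `a d - b c' = c` modulo `p` in boxes of volume
`p^(3 + ε)`.

The condition on the volume of the box comes from the largest of the exponential sums
`∑_(det X = c) ψ(tr (H X))`, that of the matrices `H` of rank one, which is of order `p^(n² - n)`.

Proof (`Pool.Agent.Q20.RG`): a bound for the exponential sums over the matrices with determinant `c`
from the invariance under the column operations, completion in `n²` coordinates and helper46's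
form (`Pool.Agent.Q46.MH.crit_many`) of the covering criterion for vectors of integers of the starting
repository (`Pool.Agent.Y961.JR.critJ`).
-/

set_option autoImplicit false

namespace Pool.Agent.Results.MP_f9960f_nt.MatricesWithGivenDeterminant

/-- the record scale `log x (log₂ x)² log₄ x / (log₃ x)²` -/
noncomputable def scale (x : ℝ) : ℝ :=
  Real.log x * (Real.log (Real.log x)) ^ 2 * Real.log (Real.log (Real.log (Real.log x))) /
    (Real.log (Real.log (Real.log x))) ^ 2

/-- no prime at distance at most `K` of `n` -/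
def Isolated (K : ℝ) (n : ℕ) : Prop := ∀ q : ℕ, q.Prime → K < |(q : ℝ) - n|

/-- **Isolated matrices with a prescribed determinant modulo `p`.** For `n ≥ 2`, all large primes `p`,
all `c` prime to `p` and all boxes of intervals `[A a b, A a b + N a b)` in `[0, p)` of lengths at least
`p^ε` and with `∏ N a b ≥ p^(n² - n + 1 + ε)`, at least `(∏ N a b) p^(-1 - ε)` matrices `Z` of natural
numbers in the box have a determinant congruent to `c` modulo `p` and all their entries isolated on the
record scale. -/
theorem result : ∀ n : ℕ, 2 ≤ n → ∀ ε : ℝ, 0 < ε → ε ≤ 1 →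
    ∃ κ : ℝ, 0 < κ ∧ ∃ p₀ : ℕ, ∀ p : ℕ, p₀ ≤ p → p.Prime → ∀ c : ℤ, ¬ (p : ℤ) ∣ c →
    ∀ A N : Fin n → Fin n → ℕ, (∀ a b, A a b + N a b ≤ p) → (∀ a b, (p : ℝ) ^ ε ≤ N a b) →
      (p : ℝ) ^ ((n : ℝ) * n - n + 1 + ε) ≤ ∏ a, ∏ b, (N a b : ℝ) →
      ∃ G : Finset (Matrix (Fin n) (Fin n) ℕ),
        (∏ a, ∏ b, (N a b : ℝ)) * (p : ℝ) ^ (-1 - ε) ≤ G.card ∧
        ∀ Z ∈ G, (∀ a b, A a b ≤ Z a b ∧ Z a b < A a b + N a b) ∧
          (p : ℤ) ∣ (Z.map (fun z : ℕ => (z : ℤ))).det - c ∧
          ∀ a b, Isolated (κ * scale p) (Z a b) :=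
  fun n hn ε h0 h1 => Pool.Agent.Q20.RG.detmain n hn ε h0 h1

end Pool.Agent.Results.MP_f9960f_nt.MatricesWithGivenDeterminant
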