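import Pool.Agent.Q20.RG.FieldExp

/-!
# Record prime gaps around the exponent `n` and around all the coordinates of `c g^n` in `𝔽_q`, `q = p^r`

Let `r ≥ 1` and `0 < ε ≤ 1`.  There is `κ > 0` such that for all large primes `p`, all fields `K` with a
basis `b` of `r` elements over the field with `p` elements, all nonzero `g` and `c` in `K`, all intervals
`[A₀, A₀ + N₀)` in `[0, T)`, `T` the order of `g`, and all intervals `[A_j, A_j + N_j)` in `[0, p)` of
lengths at least `p^ε` with `N₀ ∏ N_j ≥ p^(3 r / 2 + ε)`, at least `N₀ (∏ N_j) p^(-r - ε)` of the exponents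
`n` in `[A₀, A₀ + N₀)` (there should be about `N₀ (∏ N_j) p^(-r)`) have these properties: the least
residue of the `j`-th coordinate of `c g^n` in the basis `b` lies in `[A_j, A_j + N_j)` for every `j`, and
`n` as well as all these `r` least residues are isolated: no prime lies at distance at most
`κ log q (log₂ q)² log₄ q / (log₃ q)²`, `q = p^r`, of any of the `r + 1` numbers.

The terms `u_n, …, u_(n + r - 1)` of a linear recurring sequence modulo `p` with an irreducible
characteristic polynomial of degree `r` are the coordinates of `c g^n` in a suitable basis; so an index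
and the `r` consecutive terms of the sequence (modulo `p`) which begin there lie in the middle of prime
gaps of record length at the same time; for example `n`, and the least residues of the Fibonacci numbers
`F_n` and `F_(n + 1)` modulo `p`, if `x² - x - 1` is irreducible modulo `p` and the period is at least
`p^(1 + ε)`.  The case `r = 1` is `MP_028722_nt.ModularExponentials` of helper46.

Proof (`Pool.Agent.Q20.RG`): the exponential sums with the twist `e(h n / T)` are bounded by the
orbits of the linear functionals under the multiplication by `g` (no Weil bound is needed); then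
completion in `r + 1` coordinates and helper46's form (`Pool.Agent.Q46.MH.crit_many`) of the covering
criterion for vectors of integers of the starting repository (`Pool.Agent.Y961.JR.critJ`).
-/

set_option autoImplicit false

namespace Pool.Agent.Results.MP_f9960f_nt.PowersInFiniteFields

/-- the record scale `log x (log₂ x)² log₄ x / (log₃ x)²` -/
noncomputable def scale (x : ℝ) : ℝ :=
  Real.log x * (Real.log (Real.log x)) ^ 2 * Real.log (Real.log (Real.log (Real.log x))) /
    (Real.log (Real.log (Real.log x))) ^ 2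

/-- no prime at distance at most `K` of `n` -/
def Isolated (K : ℝ) (n : ℕ) : Prop := ∀ q : ℕ, q.Prime → K < |(q : ℝ) - n|

/-- the least residue modulo `p` of the `j`-th coordinate of `x` in the basis `b` -/
noncomputable def coord {p r : ℕ} {K : Type} [Field K] [Algebra (ZMod p) K]
    (b : Module.Basis (Fin r) (ZMod p) K) (x : K) (j : Fin r) : ℕ := (b.repr x j).val

/-- **Isolated exponents and coordinates.** For all large primes `p`, all fields `K` with a basis `b` of
`r` elements over `ZMod p`, all nonzero `g` and `c` in `K`, all intervals `[A₀, A₀ + N₀)` in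
`[0, orderOf g)` and `[A j, A j + N j)` in `[0, p)` with `N j ≥ p^ε` and `N₀ ∏ N j ≥ p^(3 r / 2 + ε)`, at
least `N₀ (∏ N j) p^(-r - ε)` of the `n` in `[A₀, A₀ + N₀)` are isolated on the record scale together with
all the coordinates of `c g^n`, and these lie in the prescribed intervals. -/
theorem result : ∀ r : ℕ, 1 ≤ r → ∀ ε : ℝ, 0 < ε → ε ≤ 1 →
    ∃ κ : ℝ, 0 < κ ∧ ∃ p₀ : ℕ, ∀ p : ℕ, p₀ ≤ p → ∀ [Fact p.Prime],
    ∀ (K : Type) [Field K] [Algebra (ZMod p) K] (b : Module.Basis (Fin r) (ZMod p) K) (g c : Kˣ)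
      (A₀ N₀ : ℕ) (A N : Fin r → ℕ), A₀ + N₀ ≤ orderOf g → (∀ j, A j + N j ≤ p) →
      (∀ j, (p : ℝ) ^ ε ≤ N j) → (p : ℝ) ^ (3 * (r : ℝ) / 2 + ε) ≤ N₀ * ∏ j, (N j : ℝ) →
      ∃ G : Finset ℕ, N₀ * (∏ j, (N j : ℝ)) * (p : ℝ) ^ (-(r : ℝ) - ε) ≤ G.card ∧
        ∀ n ∈ G, (A₀ ≤ n ∧ n < A₀ + N₀) ∧ Isolated (κ * scale ((p : ℝ) ^ r)) n ∧
          ∀ j, (A j ≤ coord b (c * (g : K) ^ n) j ∧ coord b (c * (g : K) ^ n) j < A j + N j) ∧
            Isolated (κ * scale ((p : ℝ) ^ r)) (coord b (c * (g : K) ^ n) j) := by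
  intro r hr ε h0 h1
  obtain ⟨κ, hκ, p₀, h⟩ := Pool.Agent.Q20.RG.fieldmain r hr ε h0 h1
  refine ⟨κ, hκ, p₀, ?_⟩
  intro p hp _ K _ _ b g c A₀ N₀ A N h2 h3 h4 h5
  obtain ⟨G, hG1, hG2⟩ := h p hp K b g c A₀ N₀ A N h2 h3 h4 h5
  refine ⟨G, hG1, fun n hn => ?_⟩
  obtain ⟨g1, g2, g3⟩ := hG2 n hn
  refine ⟨g1, g2, fun j => ?_⟩
  have g4 := g3 j
  have e1 : ((c * g ^ n : Kˣ) : K) = c * (g : K) ^ n := by push_cast; rfl
  rw [e1] at g4
  exact g4

end Pool.Agent.Results.MP_f9960f_nt.PowersInFiniteFields
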